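import Pool.Agent.H22.LVP.PC
import Pool.Agent.H26.ES.Targets

/-!
# Row PCP of est_modules: bad `q`-lines in a table, positions
-/

set_option autoImplicit false

open Finset MeasureTheory

namespace Pool.Agent.H22.EST

open Pool.Agent.H24.CL Pool.Agent.H24.LV Pool.Agent.H26.ES Pool.Agent.H22.LVP

open scoped Classical

/-- the crossings of the `q`-line `phi p y b`, `κ` in a set `R` of representatives -/
noncomputable def EP {k : ℕ} (p q : ℕ) (V : Set (X k)) (G : ℕ → Set (X k)) (R : Finset (X k))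
    (b : X k) (y : ℕ) : Finset (X k × ℕ) :=
  (R ×ˢ range q).filter (fun c => phi q c.2 (phi p y b) ∈ V ∧
    phi q ((y + p * c.2) % q) (b + c.1) ∈ G ((y + p * c.2) / q))

theorem mem_EP {k : ℕ} {p q : ℕ} {V : Set (X k)} {G : ℕ → Set (X k)} {R : Finset (X k)} {b : X k}
    {y : ℕ} {c : X k × ℕ} : c ∈ EP p q V G R b y ↔ (c.1 ∈ R ∧ c.2 < q) ∧
      phi q c.2 (phi p y b) ∈ V ∧ phi q ((y + p * c.2) % q) (b + c.1) ∈ G ((y + p * c.2) / q) := by
  unfold EP
  rw [Finset.mem_filter, Finset.mem_product, Finset.mem_range]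

theorem q_acP {k : ℕ} {p q : ℕ} (hq : 0 < q) (V : Set (X k)) (G : ℕ → Set (X k)) (b : X k)
    (y : ℕ) : (q : ℝ) * acP p q V G b y = (((range q).filter fun z => phi q z (phi p y b) ∈ V ∧
      phi q ((y + p * z) % q) b ∈ G ((y + p * z) / q)).card : ℝ) := by
  unfold acP
  have : (0 : ℝ) < q := by exact_mod_cast hq
  field_simp

/-- invariance of the density of the crossings -/
theorem acP_inv (hCO : L_CO) {k p q : ℕ} {V : Set (X k)} {G : ℕ → Set (X k)}
    (hG : ∀ y, Inv k p (G y)) (b : X k) (y : ℕ) {h : X k} (hh : h ∈ H k p 1) :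
    acP p q V G (b + h) y = acP p q V G b y := by
  unfold acP
  congr 3
  ext z
  have h1 : phi p y (b + h) = phi p y b := by
    rw [map_add, hCO.2.1 k p y h hh, add_zero]
  rw [h1, Finset.mem_filter, Finset.mem_filter, map_add]
  have h2 : phi q ((y + p * z) % q) b + phi q ((y + p * z) % q) h ∈ G ((y + p * z) / q) ↔
      phi q ((y + p * z) % q) b ∈ G ((y + p * z) / q) := by
    constructor
    · intro h3
      have h4 := hG _ _ h3 _ ((H k p 1).neg_mem (phi_H q ((y + p * z) % q) hh))
      rwa [add_neg_cancel_right] at h4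
    · intro h3
      exact hG _ _ h3 _ (phi_H q ((y + p * z) % q) hh)
  rw [h2]

theorem sub_mem_iff {k p : ℕ} {a b h : X k} (hh : h ∈ H k p 1) :
    a - (b + h) ∈ H k p 1 ↔ a - b ∈ H k p 1 := by
  have e : a - b = (a - (b + h)) + h := by abel
  constructor
  · intro h1
    rw [e]
    exact (H k p 1).add_mem h1 hh
  · intro h1
    have h2 := (H k p 1).sub_mem h1 hh
    have e2 : a - b - h = a - (b + h) := by abel
    rwa [e2] at h2

theorem add_sub_mem_iff {k p : ℕ} {a b h : X k} (hh : h ∈ H k p 1) :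
    a + h - b ∈ H k p 1 ↔ a - b ∈ H k p 1 := by
  constructor
  · intro h1
    have h2 := (H k p 1).sub_mem h1 hh
    have e2 : a + h - b - h = a - b := by abel
    rwa [e2] at h2
  · intro h1
    have h2 := (H k p 1).add_mem h1 hh
    have e2 : a - b + h = a + h - b := by abel
    rwa [e2] at h2

/-- the pairs of crossings of different directions -/
noncomputable def E2P {k : ℕ} (E : Finset (X k × ℕ)) : Finset ((X k × ℕ) × (X k × ℕ)) :=
  (E ×ˢ E).filter (fun e => e.1.1 ≠ e.2.1)

theorem sum_EP {k : ℕ} {p q : ℕ} (V : Set (X k)) (G : ℕ → Set (X k)) (R : Finset (X k))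
    (b : X k) (y : ℕ) (g : X k × ℕ → ℝ) :
    ∑ c ∈ EP p q V G R b y, g c = ∑ r ∈ R, ∑ z ∈ (range q).filter (fun z =>
      phi q z (phi p y b) ∈ V ∧ phi q ((y + p * z) % q) (b + r) ∈ G ((y + p * z) / q)), g (r, z) := by
  unfold EP
  rw [Finset.sum_filter, Finset.sum_product]
  apply Finset.sum_congr rfl
  intro r _
  rw [Finset.sum_filter]

theorem E2P_card (hCO : L_CO) {k p q : ℕ} (hp : 1 ≤ p) (hq : 0 < q) {V : Set (X k)}
    {G : ℕ → Set (X k)} (hG : ∀ y, Inv k p (G y)) {kap : ℝ} {R : Finset (X k)} {y : ℕ}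
    (hR : R ⊆ Kr k p y) (hRd : ∀ r ∈ R, ∀ r' ∈ R, r - r' ∈ H k p 1 → r = r')
    (hsum : ∀ F : X k → ℝ, (∀ κ ∈ Kr k p y, ∀ h ∈ H k p 1, F (κ + h) = F κ) →
        ∑ κ ∈ Kr k p y, F κ = (p : ℝ) ^ k * ∑ r ∈ R, F r) (b : X k)
    (hbad : BadP p q V G kap b y) :
    kap ^ 2 * (q : ℝ) ^ 2 ≤ ((E2P (EP p q V G R b y)).card : ℝ) := by
  have hKr := (hCO.2.2.2.1 k p y hp).2
  have hq0 : (0 : ℝ) < q := by exact_mod_cast hq
  have hp0 : (0 : ℝ) < p := by exact_mod_cast hp
  unfold BadP difP at hbad
  have hin : ∀ κ : X k, (∑ κ' ∈ Kr k p y, if κ - κ' ∈ H k p 1 then (0 : ℝ) else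
      acP p q V G (b + κ) y * acP p q V G (b + κ') y) = (p : ℝ) ^ k * ∑ r ∈ R,
        if κ - r ∈ H k p 1 then (0 : ℝ) else
          acP p q V G (b + κ) y * acP p q V G (b + r) y := by
    intro κ
    rw [hsum]
    intro κ' _ h hh
    simp only [sub_mem_iff hh]
    rw [← add_assoc, acP_inv hCO hG (b + κ') y hh]
  rw [Finset.sum_congr rfl (fun κ _ => hin κ)] at hbad
  rw [hsum _ (fun κ _ h hh => by
    simp only [add_sub_mem_iff hh]
    rw [← add_assoc, acP_inv hCO hG (b + κ) y hh])] at hbad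
  rw [← Finset.mul_sum] at hbad
  have hcard : ((E2P (EP p q V G R b y)).card : ℝ) = (q : ℝ) ^ 2 * ∑ r ∈ R, ∑ r' ∈ R,
      if r - r' ∈ H k p 1 then (0 : ℝ) else
        acP p q V G (b + r) y * acP p q V G (b + r') y := by
    have h1 : ((E2P (EP p q V G R b y)).card : ℝ) = ∑ c ∈ EP p q V G R b y,
        ∑ c' ∈ EP p q V G R b y, if c.1 ≠ c'.1 then (1 : ℝ) else 0 := by
      unfold E2P
      rw [Finset.card_filter]
      push_cast
      rw [Finset.sum_product]
    rw [h1, sum_EP, Finset.mul_sum]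
    apply Finset.sum_congr rfl
    intro r hr
    have hphi : ∀ s ∈ R, phi p y (b + s) = phi p y b := by
      intro s hs
      rw [map_add, (hKr s).mp (hR hs), add_zero]
    have h2 : ∀ z : ℕ, (∑ c' ∈ EP p q V G R b y, if (r, z).1 ≠ c'.1 then (1 : ℝ) else 0) =
        ∑ r' ∈ R, if r - r' ∈ H k p 1 then (0 : ℝ) else (q : ℝ) * acP p q V G (b + r') y := by
      intro z
      rw [sum_EP]
      apply Finset.sum_congr rfl
      intro r' hr'
      rw [q_acP hq, hphi r' hr']
      by_cases h3 : r = r'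
      · subst h3
        rw [if_pos (by rw [sub_self]; exact (H k p 1).zero_mem)]
        apply Finset.sum_eq_zero
        intro z' _
        simp
      · rw [if_neg (fun h => h3 (hRd r hr r' hr' h))]
        rw [Finset.sum_congr rfl (fun z' _ => if_pos h3), Finset.sum_const, nsmul_eq_mul, mul_one]
    rw [Finset.sum_congr rfl (fun z _ => h2 z), Finset.sum_const, nsmul_eq_mul]
    have h4 := q_acP (p := p) hq V G (b + r) y
    rw [hphi r hr] at h4
    rw [← h4, Finset.mul_sum, Finset.mul_sum]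
    apply Finset.sum_congr rfl
    intro r' _
    split_ifs <;> ring
  rw [hcard]
  have hpk : (0 : ℝ) < (p : ℝ) ^ k := by positivity
  have h5 : (p : ℝ) ^ k * ((p : ℝ) ^ k * kap ^ 2) ≤ (p : ℝ) ^ k * ((p : ℝ) ^ k * ∑ r ∈ R,
      ∑ r' ∈ R, if r - r' ∈ H k p 1 then (0 : ℝ) else
        acP p q V G (b + r) y * acP p q V G (b + r') y) := by
    refine le_trans (le_of_eq ?_) hbad
    rw [two_mul, pow_add]
    ring
  have h6 := le_of_mul_le_mul_left (le_of_mul_le_mul_left h5 hpk) hpk
  nlinarith [mul_le_mul_of_nonneg_left h6 (sq_nonneg (q : ℝ))]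

/-- at every cell there is at most one direction -/
theorem dir_inj (hCO : L_CO) {k p q : ℕ} (hpq : p.Coprime q) (hq : 0 < q)
    {V : Set (X k)} {G : ℕ → Set (X k)} (hU : Uni k p G) {b : X k} {y : ℕ} (hy : y < p)
    {R : Finset (X k)} (hRk : ∀ r ∈ R, r ∈ H k p k) (hR0 : ∀ r ∈ R, phi p y r = 0)
    (hR : ∀ r ∈ R, ∀ r' ∈ R, r - r' ∈ H k p 1 → r = r') {c c' : X k × ℕ}
    (hc : c ∈ EP p q V G R b y) (hc' : c' ∈ EP p q V G R b y) (h : c.2 = c'.2) : c = c' := by
  have h1 := mem_EP.mp hc
  have h2 := mem_EP.mp hc'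
  rw [← h] at h2
  have hy' : (y + p * c.2) / q < p := by
    rw [Nat.div_lt_iff_lt_mul hq]
    have h3 : c.2 + 1 ≤ q := h1.1.2
    have h4 : p * (c.2 + 1) ≤ p * q := Nat.mul_le_mul_left p h3
    have h5 : p * (c.2 + 1) = p * c.2 + p := by ring
    omega
  have hcomp : ∀ r : X k, phi p y r = 0 → phi p ((y + p * c.2) / q)
      (phi q ((y + p * c.2) % q) (b + r)) = phi q c.2 (phi p y b) := by
    intro r hr
    rw [hCO.1, Nat.mod_add_div, mul_comm p q, ← hCO.1, map_add, hr, add_zero]
  have h3 := hU _ hy' _ h1.2.2 _ h2.2.2 (by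
    rw [hcomp _ (hR0 _ h1.1.1), hcomp _ (hR0 _ h2.1.1)])
  rw [← map_sub, add_sub_add_left_eq_sub] at h3
  have h4 := inj_mod hCO hpq _ ((H k p k).sub_mem (hRk _ h1.1.1) (hRk _ h2.1.1)) h3
  exact Prod.ext (hR _ h1.1.1 _ h2.1.1 h4) h

theorem pf_PCP (hCO : L_CO) (hSHP : T_SHP) : T_PCP := by
  intro k hk3
  refine ⟨k, by
    have : (3 : ℝ) ≤ k := by exact_mod_cast hk3
    linarith, ?_⟩
  intro S V Ge Gd P m τ Ω kap hS hkap hkap1 p hpS q hqS hpq a Y hY hYd
  have hk1 : 1 ≤ k := by omega
  have hk3' : (3 : ℝ) ≤ k := by exact_mod_cast hk3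
  obtain ⟨hpp, hkp, hPp, _⟩ := hS.pr p hpS
  obtain ⟨hqp, hkq, hPq, _⟩ := hS.pr q hqS
  have hcop : p.Coprime q := (Nat.coprime_primes hpp hqp).mpr hpq
  have hp1 : 1 ≤ p := hpp.one_le
  have hq0 : 0 < q := hqp.pos
  have hq0' : (0 : ℝ) < q := by exact_mod_cast hq0
  have hm1 : 1 ≤ m := hS.hm
  have hinv := hS.inv p hpS
  have hTO := Pool.Agent.H58.CLV.pf_TO k p hp1
  have hKrH : ∀ y, ∀ κ ∈ Kr k p y, κ ∈ H k p k := by
    intro y κ hκ
    unfold Kr at hκ
    rw [Finset.mem_filter] at hκ
    exact (hTO.2.1 k κ).mp hκ.1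
  have hKr0 : ∀ y, ∀ κ ∈ Kr k p y, phi p y κ = 0 := fun y κ hκ =>
    ((hCO.2.2.2.1 k p y hp1).2 κ).mp hκ
  choose R hRK hRd hRsum using fun y => kr_reps hCO k p hp1 y
  have hRH : ∀ y, ∀ r ∈ R y, r ∈ H k p k := fun y r hr => hKrH y r (hRK y hr)
  set E : ℕ → X k → Finset (X k × ℕ) := fun y b => EP p q V (Gd p) (R y) b y with hE
  have hE2card : ∀ y < p, ∀ b ∈ Y y, kap ^ 2 * (q : ℝ) ^ 2 ≤ ((E2P (E y b)).card : ℝ) :=
    fun y hy b hb => E2P_card hCO hp1 hq0 hinv (hRK y) (hRd y) (hRsum y) b (hY y hy b hb).2.2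
  have hEcard : ∀ y < p, ∀ b ∈ Y y, kap * q ≤ ((E y b).card : ℝ) := by
    intro y hy b hb
    have h1 := hE2card y hy b hb
    have h2 : ((E2P (E y b)).card : ℝ) ≤ ((E y b).card : ℝ) ^ 2 := by
      have h3 : (E2P (E y b)).card ≤ (E y b).card * (E y b).card := by
        rw [← Finset.card_product]
        unfold E2P
        exact Finset.card_filter_le _ _
      have h4 : ((E2P (E y b)).card : ℝ) ≤ ((E y b).card : ℝ) * ((E y b).card : ℝ) := by
        exact_mod_cast h3
      rw [sq]
      exact h4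
    have h3 : (kap * q) ^ 2 ≤ ((E y b).card : ℝ) ^ 2 := by
      rw [mul_pow]
      exact h1.trans h2
    exact le_of_sq_le_sq h3 (Nat.cast_nonneg _)
  -- the points of the crossings
  have hpt : ∀ y < p, ∀ b ∈ Y y, ∀ c ∈ E y b,
      phi q ((y + p * c.2) % q) (b + c.1) ∈ Ge p ∧ b + c.1 - a ∈ H k p k ⊔ H k q k := by
    intro y hy b hb c hc
    have h1 := mem_EP.mp hc
    refine ⟨hS.sub p hpS _ h1.2.2, ?_⟩
    have h2 := (H k p k ⊔ H k q k).add_mem (hY y hy b hb).1
      (AddSubgroup.mem_sup_left (hRH y c.1 h1.1.1))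
    have h3 : b - a + c.1 = b + c.1 - a := by abel
    rwa [h3] at h2
  refine ⟨?_, ?_⟩
  · -- FIRST PART
    set E2 : ℕ → X k → Finset ((X k × ℕ) × (X k × ℕ)) := fun y b => E2P (E y b) with hE2
    -- the lines
    set LL : Finset (ℕ × (X k ⧸ (H k p 1))) := (range p).biUnion fun y =>
      (Y y).biUnion fun b => (E y b).image (ln p q b y) with hLL
    have hLLmem : ∀ y < p, ∀ b ∈ Y y, ∀ c ∈ E y b, ln p q b y c ∈ LL := by
      intro y hy b hb c hc
      rw [hLL]
      exact Finset.mem_biUnion.mpr ⟨y, Finset.mem_range.mpr hy,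
        Finset.mem_biUnion.mpr ⟨b, hb, Finset.mem_image_of_mem _ hc⟩⟩
    have hLLpt : ∀ l ∈ LL, ∃ w : X k, w ∈ Ge p ∧ w - phi q l.1 a ∈ H k p k ⊔ H k q k ∧
        (QuotientAddGroup.mk w : X k ⧸ (H k p 1)) = l.2 ∧ l.1 < q := by
      intro l hl
      rw [hLL] at hl
      obtain ⟨y, hy, hl⟩ := Finset.mem_biUnion.mp hl
      obtain ⟨b, hb, hl⟩ := Finset.mem_biUnion.mp hl
      obtain ⟨c, hc, rfl⟩ := Finset.mem_image.mp hl
      rw [Finset.mem_range] at hy
      obtain ⟨h1, h2⟩ := hpt y hy b hb c hc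
      refine ⟨phi q ((y + p * c.2) % q) (b + c.1), h1, ?_, rfl, Nat.mod_lt _ hq0⟩
      change phi q ((y + p * c.2) % q) (b + c.1) - phi q ((y + p * c.2) % q) a ∈ _
      rw [← map_sub]
      exact phi_sup _ _ h2
    have hLLcard : (LL.card : ℝ) ≤ q * m := by
      have h1 : LL.card = ∑ r ∈ range q, (LL.filter (fun l => l.1 = r)).card := by
        apply Finset.card_eq_sum_card_fiberwise
        intro l hl
        rw [Finset.mem_coe] at hl
        obtain ⟨_, _, _, _, h2⟩ := hLLpt l hl
        rw [Finset.mem_coe, Finset.mem_range]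
        exact h2
      have h2 : ∀ r ∈ range q, ((LL.filter (fun l => l.1 = r)).card : ℝ) ≤ m := by
        intro r _
        choose! w hw1 hw2 hw3 _ using hLLpt
        have h3 := hS.fib2 p hpS q hqS hpq ((LL.filter (fun l => l.1 = r)).image w)
          (fun v hv => by
            obtain ⟨l, hl, rfl⟩ := Finset.mem_image.mp hv
            rw [Finset.mem_filter] at hl
            exact hw1 l hl.1)
          (fun v hv v' hv' => by
            obtain ⟨l, hl, rfl⟩ := Finset.mem_image.mp hv
            obtain ⟨l', hl', rfl⟩ := Finset.mem_image.mp hv'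
            rw [Finset.mem_filter] at hl hl'
            have h4 := (H k p k ⊔ H k q k).sub_mem (hw2 l hl.1) (hw2 l' hl'.1)
            rw [hl.2, hl'.2, sub_sub_sub_cancel_right] at h4
            exact h4)
          (fun v hv v' hv' h5 => by
            obtain ⟨l, hl, rfl⟩ := Finset.mem_image.mp hv
            obtain ⟨l', hl', rfl⟩ := Finset.mem_image.mp hv'
            rw [Finset.mem_filter] at hl hl'
            have h6 : (QuotientAddGroup.mk (w l) : X k ⧸ (H k p 1)) =
                QuotientAddGroup.mk (w l') := by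
              rw [QuotientAddGroup.eq]
              have h7 := (H k p 1).neg_mem h5
              have h8 : -(w l - w l') = -w l + w l' := by abel
              rwa [h8] at h7
            rw [hw3 l hl.1, hw3 l' hl'.1] at h6
            rw [Prod.ext (hl.2.trans hl'.2.symm) h6])
        rw [Finset.card_image_of_injOn] at h3
        · exact h3
        · intro l hl l' hl' h5
          rw [Finset.mem_coe, Finset.mem_filter] at hl hl'
          have h6 : (QuotientAddGroup.mk (w l) : X k ⧸ (H k p 1)) =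
                QuotientAddGroup.mk (w l') := by rw [h5]
          rw [hw3 l hl.1, hw3 l' hl'.1] at h6
          exact Prod.ext (hl.2.trans hl'.2.symm) h6
      rw [h1]
      push_cast
      refine le_trans (Finset.sum_le_sum h2) (le_of_eq ?_)
      rw [Finset.sum_const, Finset.card_range, nsmul_eq_mul]
    -- at most `m` points of every `Y y`
    have hYcard : ∀ y < p, ((Y y).card : ℝ) ≤ m := by
      intro y hy
      have h3 := hS.fib2 q hqS p hpS (Ne.symm hpq) ((Y y).image (phi p y))
        (fun v hv => by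
          obtain ⟨b, hb, rfl⟩ := Finset.mem_image.mp hv
          exact (hY y hy b hb).2.1)
        (fun v hv v' hv' => by
          obtain ⟨b, hb, rfl⟩ := Finset.mem_image.mp hv
          obtain ⟨b', hb', rfl⟩ := Finset.mem_image.mp hv'
          have h4 := (H k p k ⊔ H k q k).sub_mem (hY y hy b hb).1 (hY y hy b' hb').1
          rw [sub_sub_sub_cancel_right] at h4
          rw [← map_sub, sup_comm]
          exact phi_sup _ _ h4)
        (fun v hv v' hv' h5 => by
          obtain ⟨b, hb, rfl⟩ := Finset.mem_image.mp hv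
          obtain ⟨b', hb', rfl⟩ := Finset.mem_image.mp hv'
          rw [← map_sub] at h5
          rw [hYd y hy b hb b' hb' h5])
      rw [Finset.card_image_of_injOn] at h3
      · exact h3
      · intro b hb b' hb' h5
        rw [Finset.mem_coe] at hb hb'
        apply hYd y hy b hb b' hb'
        rw [map_sub, h5, sub_self]
        exact (H k q 1).zero_mem
    -- a pair of lines is used at most `(k - 1) m` times
    set lp : ℕ → X k → (X k × ℕ) × (X k × ℕ) →
        (ℕ × (X k ⧸ (H k p 1))) × (ℕ × (X k ⧸ (H k p 1))) :=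
      fun y b e => (ln p q b y e.1, ln p q b y e.2) with hlp
    have hE2mem : ∀ y b e, e ∈ E2 y b → e.1 ∈ E y b ∧ e.2 ∈ E y b ∧ e.1.1 ≠ e.2.1 := by
      intro y b e he
      simp only [hE2, E2P, Finset.mem_filter, Finset.mem_product] at he
      exact ⟨he.1.1, he.1.2, he.2⟩
    have huse : ∀ l : (ℕ × (X k ⧸ (H k p 1))) × (ℕ × (X k ⧸ (H k p 1))),
        ∑ y ∈ range p, ∑ b ∈ Y y, (((E2 y b).filter (fun e => lp y b e = l)).card : ℝ) ≤
          (k - 1 : ℕ) * m := by
      intro l
      set Dl : Finset ℕ := (range p).filter (fun y => ∃ b ∈ Y y, ∃ e ∈ E2 y b, lp y b e = l)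
        with hDl
      have h1 : ∀ y ∈ range p, ∑ b ∈ Y y, (((E2 y b).filter (fun e => lp y b e = l)).card : ℝ) ≤
          if y ∈ Dl then m else 0 := by
        intro y hy
        rw [Finset.mem_range] at hy
        split_ifs with hyD
        · refine le_trans (Finset.sum_le_sum (g := fun _ => (1 : ℝ)) ?_) ?_
          · intro b hb
            have h2 : ((E2 y b).filter (fun e => lp y b e = l)).card ≤ 1 := by
              rw [Finset.card_le_one]
              intro e he e' he'
              rw [Finset.mem_filter] at he he'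
              obtain ⟨g1, g2, _⟩ := hE2mem y b e he.1
              obtain ⟨g1', g2', _⟩ := hE2mem y b e' he'.1
              have h3 : lp y b e = lp y b e' := he.2.trans he'.2.symm
              have h4 : ln p q b y e.1 = ln p q b y e'.1 := congrArg Prod.fst h3
              have h5 : ln p q b y e.2 = ln p q b y e'.2 := congrArg Prod.snd h3
              exact Prod.ext
                (ln_inj hCO hcop (hRH y) (hRd y) (mem_EP.mp g1).1.1 (mem_EP.mp g1').1.1
                  (mem_EP.mp g1).1.2 (mem_EP.mp g1').1.2 h4)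
                (ln_inj hCO hcop (hRH y) (hRd y) (mem_EP.mp g2).1.1 (mem_EP.mp g2').1.1
                  (mem_EP.mp g2).1.2 (mem_EP.mp g2').1.2 h5)
            exact_mod_cast h2
          · rw [Finset.sum_const, nsmul_eq_mul, mul_one]
            exact hYcard y hy
        · refine le_of_eq (Finset.sum_eq_zero ?_)
          intro b hb
          rw [Nat.cast_eq_zero, Finset.card_eq_zero, Finset.filter_eq_empty_iff]
          intro e he hle
          apply hyD
          rw [hDl, Finset.mem_filter, Finset.mem_range]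
          exact ⟨hy, b, hb, e, he, hle⟩
      have h2 : Dl.card ≤ k - 1 := by
        rcases Dl.eq_empty_or_nonempty with h0 | ⟨y0, hy0⟩
        · rw [h0]; simp
        · rw [hDl, Finset.mem_filter, Finset.mem_range] at hy0
          obtain ⟨hy0p, b0, hb0, e0, he0, hl0⟩ := hy0
          obtain ⟨g1, g2, g3⟩ := hE2mem y0 b0 e0 he0
          have m1 := (mem_EP.mp g1).1.1
          have m2 := (mem_EP.mp g2).1.1
          have hDs : Dl ⊆ range p := by
            rw [hDl]
            exact Finset.filter_subset _ _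
          refine hSHP.1 k p hpp hkp e0.1.1 e0.2.1 (fun h => g3 (hRd y0 _ m1 _ m2 h)) Dl hDs ?_
          intro y hy
          rw [hDl, Finset.mem_filter, Finset.mem_range] at hy
          obtain ⟨hyp, b, hb, e, he, hl⟩ := hy
          obtain ⟨f1, f2, _⟩ := hE2mem y b e he
          have n1 := (mem_EP.mp f1).1.1
          have n2 := (mem_EP.mp f2).1.1
          have h3 : lp y0 b0 e0 = lp y b e := hl0.trans hl.symm
          have h4 : ln p q b0 y0 e0.1 = ln p q b y e.1 := congrArg Prod.fst h3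
          have h5 : ln p q b0 y0 e0.2 = ln p q b y e.2 := congrArg Prod.snd h3
          have h4r : (y0 + p * e0.1.2) % q = (y + p * e.1.2) % q := congrArg Prod.fst h4
          have h5r : (y0 + p * e0.2.2) % q = (y + p * e.2.2) % q := congrArg Prod.fst h5
          have h4q := congrArg Prod.snd h4
          have h5q := congrArg Prod.snd h5
          simp only [ln] at h4q h5q
          rw [← h4r] at h4q
          rw [← h5r] at h5q
          have h6 := mk_eq h4q
          have h7 := mk_eq h5q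
          rw [← map_sub] at h6 h7
          have s1 := (H k p k ⊔ H k q k).sub_mem (hpt y0 hy0p b0 hb0 _ g1).2
            (hpt y hyp b hb _ f1).2
          have s2 := (H k p k ⊔ H k q k).sub_mem (hpt y0 hy0p b0 hb0 _ g2).2
            (hpt y hyp b hb _ f2).2
          rw [sub_sub_sub_cancel_right] at s1 s2
          have h8 : (b0 + e0.1.1 - (b + e.1.1)) - (b0 + e0.2.1 - (b + e.2.1)) =
              (e0.1.1 - e0.2.1) - (e.1.1 - e.2.1) := by abel
          have h9 : (e0.1.1 - e0.2.1) - (e.1.1 - e.2.1) ∈ H k p k :=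
            (H k p k).sub_mem ((H k p k).sub_mem (hRH y0 _ m1) (hRH y0 _ m2))
              ((H k p k).sub_mem (hRH y _ n1) (hRH y _ n2))
          have h10 := two_lines hCO hcop hk1 _ _ s1 s2 h6 h7 (by rw [h8]; exact h9)
          rw [h8] at h10
          have h11 : phi p y ((e0.1.1 - e0.2.1) - (e.1.1 - e.2.1)) = 0 := hCO.2.1 k p y _ h10
          rw [map_sub, map_sub (phi p y) e.1.1, hKr0 y _ (hRK y n1), hKr0 y _ (hRK y n2),
            sub_zero, sub_zero, map_sub] at h11
          exact sub_eq_zero.mp h11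
      refine le_trans (Finset.sum_le_sum h1) ?_
      rw [← Finset.sum_filter, Finset.sum_const, nsmul_eq_mul]
      apply mul_le_mul_of_nonneg_right _ (by linarith)
      have h3 : ((range p).filter (fun y => y ∈ Dl)).card ≤ Dl.card := by
        apply Finset.card_le_card
        intro y hy
        exact (Finset.mem_filter.mp hy).2
      exact_mod_cast le_trans h3 h2
    -- double counting
    have hcount : ∑ y ∈ range p, ∑ b ∈ Y y, ((E2 y b).card : ℝ) ≤
        ((q : ℝ) * m) ^ 2 * ((k - 1 : ℕ) * m) := by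
      have h1 : ∀ y ∈ range p, ∀ b ∈ Y y, ((E2 y b).card : ℝ) =
          ∑ l ∈ LL ×ˢ LL, (((E2 y b).filter (fun e => lp y b e = l)).card : ℝ) := by
        intro y hy b hb
        rw [Finset.mem_range] at hy
        rw [← Nat.cast_sum]
        congr 1
        apply Finset.card_eq_sum_card_fiberwise
        intro e he
        rw [Finset.mem_coe] at he
        obtain ⟨g1, g2, _⟩ := hE2mem y b e he
        rw [Finset.mem_coe, Finset.mem_product]
        exact ⟨hLLmem y hy b hb _ g1, hLLmem y hy b hb _ g2⟩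
      have h2 : ∑ y ∈ range p, ∑ b ∈ Y y, ((E2 y b).card : ℝ) =
          ∑ l ∈ LL ×ˢ LL, ∑ y ∈ range p, ∑ b ∈ Y y,
            (((E2 y b).filter (fun e => lp y b e = l)).card : ℝ) := by
        rw [Finset.sum_comm]
        apply Finset.sum_congr rfl
        intro y hy
        rw [Finset.sum_comm]
        exact Finset.sum_congr rfl (fun b hb => h1 y hy b hb)
      rw [h2]
      refine le_trans (Finset.sum_le_sum (fun l _ => huse l)) ?_
      rw [Finset.sum_const, nsmul_eq_mul, Finset.card_product]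
      apply mul_le_mul_of_nonneg_right
      · push_cast
        rw [sq]
        exact mul_le_mul hLLcard hLLcard (Nat.cast_nonneg _) (by positivity)
      · have : (0 : ℝ) ≤ ((k - 1 : ℕ) : ℝ) := Nat.cast_nonneg _
        nlinarith
    have hlow : (∑ y ∈ range p, ((Y y).card : ℝ)) * (kap ^ 2 * (q : ℝ) ^ 2) ≤
        ∑ y ∈ range p, ∑ b ∈ Y y, ((E2 y b).card : ℝ) := by
      rw [Finset.sum_mul]
      apply Finset.sum_le_sum
      intro y hy
      rw [Finset.mem_range] at hy
      rw [← nsmul_eq_mul, ← Finset.sum_const]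
      exact Finset.sum_le_sum (fun b hb => hE2card y hy b hb)
    rw [le_div_iff₀ (by positivity)]
    have h3 := le_trans hlow hcount
    have hkk : (((k - 1 : ℕ)) : ℝ) ≤ k := by exact_mod_cast Nat.sub_le k 1
    have h4 : ((q : ℝ) * m) ^ 2 * ((k - 1 : ℕ) * m) ≤ (q : ℝ) ^ 2 * (k * m ^ 3) := by
      have : (0 : ℝ) ≤ (q : ℝ) ^ 2 * m ^ 3 := by positivity
      nlinarith
    have h5 : (q : ℝ) ^ 2 * ((∑ y ∈ range p, ((Y y).card : ℝ)) * kap ^ 2) ≤
        (q : ℝ) ^ 2 * (k * m ^ 3) := by nlinarith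
    exact le_of_mul_le_mul_left h5 (by positivity)
  · -- SECOND PART
    rintro ⟨y, hy, b, hb⟩
    refine ⟨fun z => ((E y b).filter (fun c => (y + p * c.2) % q = z)).image
      (fun c => b + c.1), ?_, ?_, ?_⟩
    · intro z hz v hv
      obtain ⟨c, hc, rfl⟩ := Finset.mem_image.mp hv
      rw [Finset.mem_filter] at hc
      obtain ⟨h1, h2⟩ := hpt y hy b hb c hc.1
      rw [hc.2] at h1
      exact ⟨h2, h1⟩
    · intro z hz v hv v' hv' h5
      obtain ⟨c, hc, rfl⟩ := Finset.mem_image.mp hv
      obtain ⟨c', hc', rfl⟩ := Finset.mem_image.mp hv'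
      rw [Finset.mem_filter] at hc hc'
      rw [add_sub_add_left_eq_sub] at h5
      have h6 := inj_mod hCO hcop z ((H k p k).sub_mem (hRH y _ (mem_EP.mp hc.1).1.1)
        (hRH y _ (mem_EP.mp hc'.1).1.1)) h5
      rw [hRd y _ (mem_EP.mp hc.1).1.1 _ (mem_EP.mp hc'.1).1.1 h6]
    · refine le_trans (hEcard y hy b hb) ?_
      have h1 : (E y b).card = ∑ z ∈ range q,
          ((E y b).filter (fun c => (y + p * c.2) % q = z)).card := by
        apply Finset.card_eq_sum_card_fiberwise
        intro c _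
        rw [Finset.mem_coe, Finset.mem_range]
        exact Nat.mod_lt _ hq0
      rw [h1]
      push_cast
      apply le_of_eq
      apply Finset.sum_congr rfl
      intro z _
      rw [Finset.card_image_of_injOn]
      intro c hc c' hc' h5
      rw [Finset.mem_coe, Finset.mem_filter] at hc hc'
      simp only at h5
      have h6 := add_left_cancel h5
      refine Prod.ext h6 ?_
      exact row_inj hcop (mem_EP.mp hc.1).1.2 (mem_EP.mp hc'.1).1.2 (hc.2.trans hc'.2.symm)

end Pool.Agent.H22.EST
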